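import Pool.Agent.H36.AO.PStmts

/-!
AO, block P, module GFD: conditions are definable.
-/

set_option linter.unusedVariables false
set_option linter.unusedSectionVars false
set_option synthInstance.maxSize 100000

namespace AO.BP

open SW

theorem gfd_lc {s u : List ℕ} (h : lc s = lc u) : s = u := Encodable.encode_injective h

theorem gfd_eq {s u : List ℕ} (h : ∀ k v : ℕ, s[k]? = some v ↔ u[k]? = some v) : s = u :=
  List.ext_getElem? fun k => Option.ext fun v => h k v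

section
variable {M : Type} [SetStr M] [ZF M]

theorem gfd_nu0 : (nu 0 : M) = emp := rfl

theorem gfd_nuS (n : ℕ) : (nu (n + 1) : M) = suc (nu n) := rfl

theorem gfd_inj {m n : ℕ} (h : (nu m : M) = nu n) : m = n := CUR.nu_inj h

theorem gfd_r1 {x : M} {n : ℕ} : RR (RP 1) x (nu n) emp ↔ ∃ s : List ℕ, x = nu (lc s) ∧
    s.length = n := by
  constructor
  · rintro ⟨t, ⟨s, h0, h1⟩, e0, e1, _⟩
    refine ⟨s, by rw [e0, h0], ?_⟩
    rw [← h1]
    exact (gfd_inj e1).symm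
  · rintro ⟨s, rfl, rfl⟩
    exact ⟨![lc s, s.length, 0, 0, 0], ⟨s, rfl, rfl⟩, rfl, rfl, rfl⟩

theorem gfd_r2 {s : List ℕ} {j : M} : RR (RP 2) (nu (lc s)) j emp ↔ ∃ k v : ℕ,
    s[k]? = some v ∧ j = nu (Nat.pair k v) := by
  constructor
  · rintro ⟨t, ⟨s', k, v, h0, h1, h2⟩, e0, e1, _⟩
    rw [h0] at e0
    have := gfd_lc (gfd_inj e0)
    subst this
    exact ⟨k, v, h1, by rw [e1, h2]⟩
  · rintro ⟨k, v, h, rfl⟩
    exact ⟨![lc s, Nat.pair k v, 0, 0, 0], ⟨s, k, v, rfl, h, rfl⟩, rfl, rfl, rfl⟩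

theorem gfd_r3 {u : List ℕ} : RR (RP 3) (nu (lc u) : M) emp emp ↔ adm u := by
  constructor
  · rintro ⟨t, ⟨u', h0, h1⟩, e0, _, _⟩
    rw [h0] at e0
    have := gfd_lc (gfd_inj e0)
    subst this
    exact h1
  · intro h
    exact ⟨![lc u, 0, 0, 0, 0], ⟨u, rfl, h⟩, rfl, rfl, rfl⟩

theorem gfd_r4 {u s : List ℕ} {m : ℕ} : RR (RP 4) (nu (lc u) : M) (nu (lc s)) (nu m) ↔
    m ≤ s.length ∧ ad m u s := by
  constructor
  · rintro ⟨t, ⟨u', s', h0, h1, h2, h3⟩, e0, e1, e2⟩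
    rw [h0] at e0
    rw [h1] at e1
    have := gfd_lc (gfd_inj e0)
    subst this
    have := gfd_lc (gfd_inj e1)
    subst this
    rw [gfd_inj e2]
    exact ⟨h2, h3⟩
  · rintro ⟨h1, h2⟩
    exact ⟨![lc u, lc s, m, 0, 0], ⟨u, s, rfl, rfl, h1, h2⟩, rfl, rfl, rfl⟩

theorem gfd_r4' {x y m : M} (h : RR (RP 4) y x m) : ∃ u s : List ℕ, y = nu (lc u) ∧
    x = nu (lc s) := by
  obtain ⟨t, ⟨u', s', h0, h1, h2, h3⟩, e0, e1, e2⟩ := h
  exact ⟨u', s', by rw [e0, h0], by rw [e1, h1]⟩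

/-- the internal description of conditions -/
def gfdF (l T : M) (R1 R2 R3 R4 : M → M → M → Prop) (p : M) : Prop :=
  Fnt p ∧
  (∀ z, E z p → (∃ j i, E j om ∧ E i l ∧ z = fct (nu 0) j i i) ∨
    (∃ j d, E j om ∧ E d l ∧ z = fct (nu 1) j d d) ∨
    ∃ j d i, E j om ∧ E d l ∧ E i l ∧ E i (nb T d) ∧ z = fct (nu 2) j d i) ∧
  (∃ n, E n om ∧
    (∀ i, E i l → (∀ j, ¬ E (fct (nu 0) j i i) p) ∨
      ∃ x, R1 x n emp ∧ ∀ j, E (fct (nu 0) j i i) p ↔ R2 x j emp) ∧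
    (∀ d, E d l → (∀ j, ¬ E (fct (nu 1) j d d) p) ∨
      ∃ x, R1 x (suc n) emp ∧ R3 x emp emp ∧ ∀ j, E (fct (nu 1) j d d) p ↔ R2 x j emp)) ∧
  (∀ m d i, E (fct (nu 2) m d i) p → (∃ j, E (fct (nu 0) j i i) p) ∧
    (∃ j, E (fct (nu 1) j d d) p) ∧ ∃ y x, (∀ j, E (fct (nu 1) j d d) p ↔ R2 y j emp) ∧
    (∀ j, E (fct (nu 0) j i i) p ↔ R2 x j emp) ∧ R4 y x m) ∧
  ∀ d i j m m', E (fct (nu 2) m d i) p → E (fct (nu 2) m' d j) p →
    (∀ k, E (fct (nu 0) k i i) p ↔ E (fct (nu 0) k j j) p) → i = j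

theorem gfd_df {R1 R2 R3 R4 : M → M → M → Prop} (h1 : Cl3 R1) (h2 : Cl3 R2) (h3 : Cl3 R3)
    (h4 : Cl3 R4) (l T : M) : Cl (fun p => gfdF l T R1 R2 R3 R4 p) := by
  have i1 : ∀ {n : ℕ} {t s u : (Fin n → M) → M} [DfT t] [DfT s] [DfT u],
    Df (fun v => R1 (t v) (s v) (u v)) := fun {n t s u} a b c => h1.comp3 a b c
  have i2 : ∀ {n : ℕ} {t s u : (Fin n → M) → M} [DfT t] [DfT s] [DfT u],
    Df (fun v => R2 (t v) (s v) (u v)) := fun {n t s u} a b c => h2.comp3 a b c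
  have i3 : ∀ {n : ℕ} {t s u : (Fin n → M) → M} [DfT t] [DfT s] [DfT u],
    Df (fun v => R3 (t v) (s v) (u v)) := fun {n t s u} a b c => h3.comp3 a b c
  have i4 : ∀ {n : ℕ} {t s u : (Fin n → M) → M} [DfT t] [DfT s] [DfT u],
    Df (fun v => R4 (t v) (s v) (u v)) := fun {n t s u} a b c => h4.comp3 a b c
  unfold gfdF
  infer_instance

theorem gfd_nu01 : (nu 0 : M) ≠ nu 1 := fun h => absurd (gfd_inj h) (by decide)

theorem gfd_nu02 : (nu 0 : M) ≠ nu 2 := fun h => absurd (gfd_inj h) (by decide)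

theorem gfd_nu12 : (nu 1 : M) ≠ nu 2 := fun h => absurd (gfd_inj h) (by decide)

/-- from the internal description to approximations -/
theorem gfd_to (hstf : STFStmt) (hM : MR M) {l T p : M}
    (h : gfdF l T (RR (RP 1)) (RR (RP 2)) (RR (RP 3)) (RR (RP 4)) p) :
    ∃ c : Cn (Ix l), VC (Tt l T) c ∧ Enc l p c := by
  classical
  obtain ⟨h1, h2, ⟨n', hn', h3, h4⟩, h5, h6⟩ := h
  obtain ⟨n, rfl⟩ := hM.std _ hn'
  have ha : ∀ i : Ix l, ∃ s : List ℕ, (s ≠ [] → s.length = n) ∧ ∀ j,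
      E (fct (nu 0) j i.1 i.1) p ↔ ∃ k v : ℕ, s[k]? = some v ∧ j = nu (Nat.pair k v) := by
    intro i
    rcases h3 i.1 i.2 with h | ⟨x, hx, h⟩
    · exact ⟨[], fun h => absurd rfl h, fun j => ⟨fun hj => absurd hj (h j), fun ⟨k, v, hk, _⟩ =>
        by simp at hk⟩⟩
    · obtain ⟨s, rfl, hs⟩ := gfd_r1.1 hx
      exact ⟨s, fun _ => hs, fun j => (h j).trans gfd_r2⟩
  have ht : ∀ d : Ix l, ∃ u : List ℕ, (u ≠ [] → u.length = n + 1) ∧ adm u ∧ ∀ j,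
      E (fct (nu 1) j d.1 d.1) p ↔ ∃ k v : ℕ, u[k]? = some v ∧ j = nu (Nat.pair k v) := by
    intro d
    rcases h4 d.1 d.2 with h | ⟨x, hx, hx3, h⟩
    · refine ⟨[], fun h => absurd rfl h, ⟨?_, ?_⟩, fun j => ⟨fun hj => absurd hj (h j),
        fun ⟨k, v, hk, _⟩ => by simp at hk⟩⟩
      · intro k s x x' hk
        simp at hk
      · intro k s hk
        simp at hk
    · rw [← gfd_nuS] at hx
      obtain ⟨s, rfl, hs⟩ := gfd_r1.1 hx
      exact ⟨s, fun _ => hs, gfd_r3.1 hx3, fun j => (h j).trans gfd_r2⟩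
  choose a ha1 ha2 using ha
  choose t ht1 ht2 ht3 using ht
  have hfin := ((hstf M hM.std).1 p).1 h1
  have hne : ∀ {s : List ℕ}, s ≠ [] → ∃ v, s[0]? = some v := by
    intro s hs
    rcases s with _ | ⟨v, s⟩
    · exact absurd rfl hs
    · exact ⟨v, rfl⟩
  have hne' : ∀ {s : List ℕ} {k v : ℕ}, s[k]? = some v → s ≠ [] := by
    rintro s k v h rfl
    simp at h
  refine ⟨⟨a, t, fun d i m => E (fct (nu 2) (nu m) d.1 i.1) p⟩, ⟨⟨n, ?_⟩, ?_⟩, ?_⟩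
  · refine ⟨?_, ?_, ha1, ht1, ht2, ?_⟩
    · refine ((hfin.image (fun z => x1 z)).preimage
        (Subtype.val_injective.injOn (s := Subtype.val ⁻¹' _))).subset ?_
      intro i hi
      obtain ⟨v, hv⟩ := hne hi
      exact ⟨fct (nu 0) (nu (Nat.pair 0 v)) i.1 i.1, (ha2 i _).2 ⟨0, v, hv, rfl⟩,
        x1_fct _ _ _ _⟩
    · refine ((hfin.image (fun z => x1 z)).preimage
        (Subtype.val_injective.injOn (s := Subtype.val ⁻¹' _))).subset ?_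
      intro i hi
      obtain ⟨v, hv⟩ := hne hi
      exact ⟨fct (nu 1) (nu (Nat.pair 0 v)) i.1 i.1, (ht3 i _).2 ⟨0, v, hv, rfl⟩,
        x1_fct _ _ _ _⟩
    · intro d i m hB
      have hB' : E (fct (nu 2) (nu m) d.1 i.1) p := hB
      obtain ⟨⟨j1, g1⟩, ⟨j2, g2⟩, y, x, g3, g4, g5⟩ := h5 _ _ _ hB'
      obtain ⟨u, s, rfl, rfl⟩ := gfd_r4' g5
      obtain ⟨g6, g7⟩ := gfd_r4.1 g5
      have es : s = a i := by
        refine gfd_eq fun k v => ?_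
        constructor
        · intro hk
          obtain ⟨k', v', e1, e2⟩ := (ha2 i _).1 ((g4 _).2 (gfd_r2.2 ⟨k, v, hk, rfl⟩))
          have := gfd_inj e2
          rw [Nat.pair_eq_pair] at this
          rw [this.1, this.2]
          exact e1
        · intro hk
          obtain ⟨k', v', e1, e2⟩ := gfd_r2.1 ((g4 _).1 ((ha2 i _).2 ⟨k, v, hk, rfl⟩))
          have := gfd_inj e2
          rw [Nat.pair_eq_pair] at this
          rw [this.1, this.2]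
          exact e1
      have eu : u = t d := by
        refine gfd_eq fun k v => ?_
        constructor
        · intro hk
          obtain ⟨k', v', e1, e2⟩ := (ht3 d _).1 ((g3 _).2 (gfd_r2.2 ⟨k, v, hk, rfl⟩))
          have := gfd_inj e2
          rw [Nat.pair_eq_pair] at this
          rw [this.1, this.2]
          exact e1
        · intro hk
          obtain ⟨k', v', e1, e2⟩ := gfd_r2.1 ((g3 _).1 ((ht3 d _).2 ⟨k, v, hk, rfl⟩))
          have := gfd_inj e2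
          rw [Nat.pair_eq_pair] at this
          rw [this.1, this.2]
          exact e1
      subst es
      subst eu
      obtain ⟨k1, v1, q1, _⟩ := (ha2 i _).1 g1
      obtain ⟨k2, v2, q2, _⟩ := (ht3 d _).1 g2
      refine ⟨?_, hne' q2, hne' q1, ?_, g7⟩
      · rcases h2 _ hB' with ⟨j, i', _, _, e⟩ | ⟨j, i', _, _, e⟩ | ⟨j, d', i', _, _, _, hn, e⟩
        · exact absurd (fct_inj.1 e).1.symm gfd_nu02
        · exact absurd (fct_inj.1 e).1.symm gfd_nu12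
        · obtain ⟨_, _, e1, e2⟩ := fct_inj.1 e
          show E i.1 (nb T d.1)
          rw [e1, e2]
          exact hn
      · rw [← ha1 i (hne' q1)]
        exact g6
  · intro d i j m m' hi hj he
    have hi' : E (fct (nu 2) (nu m) d.1 i.1) p := hi
    have hj' : E (fct (nu 2) (nu m') d.1 j.1) p := hj
    refine Subtype.ext (h6 _ _ _ _ _ hi' hj' fun k => ?_)
    rw [ha2 i, ha2 j]
    have he' : a i = a j := he
    rw [he']
  · intro z
    constructor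
    · intro hz
      rcases h2 _ hz with ⟨j, i', hj, hi, e⟩ | ⟨j, i', hj, hi, e⟩ | ⟨j, d', i', hj, hd, hi, hn, e⟩
      · left
        rw [e] at hz
        obtain ⟨k, v, q1, q2⟩ := (ha2 ⟨i', hi⟩ j).1 hz
        exact ⟨⟨i', hi⟩, k, v, q1, by rw [e, q2]⟩
      · right; left
        rw [e] at hz
        obtain ⟨k, v, q1, q2⟩ := (ht3 ⟨i', hi⟩ j).1 hz
        exact ⟨⟨i', hi⟩, k, v, q1, by rw [e, q2]⟩
      · right; right
        obtain ⟨m, rfl⟩ := hM.std _ hj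
        rw [e] at hz
        exact ⟨⟨d', hd⟩, ⟨i', hi⟩, m, hz, e⟩
    · rintro (⟨i, k, v, q, rfl⟩ | ⟨i, k, v, q, rfl⟩ | ⟨d, i, m, q, rfl⟩)
      · exact (ha2 i _).2 ⟨k, v, q, rfl⟩
      · exact (ht3 i _).2 ⟨k, v, q, rfl⟩
      · exact q

theorem gfd_e0 {l p : M} {c : Cn (Ix l)} (h : Enc l p c) (i : Ix l) (j : M) :
    E (fct (nu 0) j i.1 i.1) p ↔ ∃ k v : ℕ, (c.a i)[k]? = some v ∧ j = nu (Nat.pair k v) := by
  constructor
  · intro hz
    rcases (h _).1 hz with ⟨i', k, v, q, e⟩ | ⟨i', k, v, q, e⟩ | ⟨d, i', m, q, e⟩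
    · obtain ⟨_, e1, e2, _⟩ := fct_inj.1 e
      have := Subtype.ext e2
      subst this
      exact ⟨k, v, q, e1⟩
    · exact absurd (fct_inj.1 e).1 gfd_nu01
    · exact absurd (fct_inj.1 e).1 gfd_nu02
  · rintro ⟨k, v, q, rfl⟩
    exact (h _).2 (Or.inl ⟨i, k, v, q, rfl⟩)

theorem gfd_e1 {l p : M} {c : Cn (Ix l)} (h : Enc l p c) (d : Ix l) (j : M) :
    E (fct (nu 1) j d.1 d.1) p ↔ ∃ k v : ℕ, (c.t d)[k]? = some v ∧ j = nu (Nat.pair k v) := by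
  constructor
  · intro hz
    rcases (h _).1 hz with ⟨i', k, v, q, e⟩ | ⟨i', k, v, q, e⟩ | ⟨d, i', m, q, e⟩
    · exact absurd (fct_inj.1 e).1.symm gfd_nu01
    · obtain ⟨_, e1, e2, _⟩ := fct_inj.1 e
      have := Subtype.ext e2
      subst this
      exact ⟨k, v, q, e1⟩
    · exact absurd (fct_inj.1 e).1 gfd_nu12
  · rintro ⟨k, v, q, rfl⟩
    exact (h _).2 (Or.inr (Or.inl ⟨d, k, v, q, rfl⟩))

theorem gfd_e2 {l p : M} {c : Cn (Ix l)} (h : Enc l p c) {j x y : M}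
    (hz : E (fct (nu 2) j x y) p) : ∃ (d i : Ix l) (m : ℕ), c.B d i m ∧ j = nu m ∧ x = d.1 ∧
    y = i.1 := by
  rcases (h _).1 hz with ⟨i', k, v, q, e⟩ | ⟨i', k, v, q, e⟩ | ⟨d, i', m, q, e⟩
  · exact absurd (fct_inj.1 e).1.symm gfd_nu02
  · exact absurd (fct_inj.1 e).1.symm gfd_nu12
  · obtain ⟨_, e1, e2, e3⟩ := fct_inj.1 e
    exact ⟨d, i', m, q, e1, e2, e3⟩

/-- the facts of an approximation -/
def gfdS (l : M) (c : Cn (Ix l)) : Set M := {z |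
  (∃ (i : Ix l) (k v : ℕ), (c.a i)[k]? = some v ∧ z = fct (nu 0) (nu (Nat.pair k v)) i.1 i.1) ∨
  (∃ (d : Ix l) (k v : ℕ), (c.t d)[k]? = some v ∧ z = fct (nu 1) (nu (Nat.pair k v)) d.1 d.1) ∨
  ∃ (d i : Ix l) (m : ℕ), c.B d i m ∧ z = fct (nu 2) (nu m) d.1 i.1}

theorem gfd_finS {l T : M} {c : Cn (Ix l)} {n : ℕ} (hc : PC (Tt l T) c n) :
    (gfdS l c).Finite := by
  have f1 : (⋃ i ∈ {i | c.a i ≠ []}, ⋃ k ∈ Set.Iio (c.a i).length,
      {(fct (nu 0) (nu (Nat.pair k ((c.a i).getD k 0))) i.1 i.1 : M)}).Finite :=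
    hc.fa.biUnion fun i _ => (Set.finite_Iio _).biUnion fun k _ => Set.finite_singleton _
  have f2 : (⋃ i ∈ {i | c.t i ≠ []}, ⋃ k ∈ Set.Iio (c.t i).length,
      {(fct (nu 1) (nu (Nat.pair k ((c.t i).getD k 0))) i.1 i.1 : M)}).Finite :=
    hc.ft.biUnion fun i _ => (Set.finite_Iio _).biUnion fun k _ => Set.finite_singleton _
  have f3 : (⋃ d ∈ {i | c.t i ≠ []}, ⋃ i ∈ {i | c.a i ≠ []}, ⋃ m ∈ Set.Iic n,
      {(fct (nu 2) (nu m) d.1 i.1 : M)}).Finite :=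
    hc.ft.biUnion fun d _ => hc.fa.biUnion fun i _ => (Set.finite_Iic _).biUnion fun k _ =>
      Set.finite_singleton _
  refine ((f1.union f2).union f3).subset ?_
  rintro z (⟨i, k, v, q, rfl⟩ | ⟨i, k, v, q, rfl⟩ | ⟨d, i, m, q, rfl⟩)
  · left; left
    simp only [Set.mem_iUnion, Set.mem_singleton_iff]
    obtain ⟨hk, e⟩ := List.getElem?_eq_some_iff.1 q
    refine ⟨i, ?_, k, hk, ?_⟩
    · intro h0
      rw [h0] at q
      simp at q
    · rw [List.getD_eq_getElem?_getD, q]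
      rfl
  · left; right
    simp only [Set.mem_iUnion, Set.mem_singleton_iff]
    obtain ⟨hk, e⟩ := List.getElem?_eq_some_iff.1 q
    refine ⟨i, ?_, k, hk, ?_⟩
    · intro h0
      rw [h0] at q
      simp at q
    · rw [List.getD_eq_getElem?_getD, q]
      rfl
  · right
    simp only [Set.mem_iUnion, Set.mem_singleton_iff]
    obtain ⟨_, b1, b2, b3, _⟩ := hc.b d i m q
    exact ⟨d, b1, i, b2, m, b3, rfl⟩

/-- facts of approximations are in a finite set -/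
theorem gfd_fin (hstf : STFStmt) (hM : MR M) {l T p : M} {c : Cn (Ix l)} {n : ℕ}
    (hc : PC (Tt l T) c n) (h : Enc l p c) : Fnt p := by
  refine ((hstf M hM.std).1 p).2 ((gfd_finS hc).subset fun z hz => (h z).1 hz)

theorem gfd_from (hstf : STFStmt) (hM : MR M) {l T p : M} {c : Cn (Ix l)}
    (hc : VC (Tt l T) c) (h : Enc l p c) :
    gfdF l T (RR (RP 1)) (RR (RP 2)) (RR (RP 3)) (RR (RP 4)) p := by
  obtain ⟨⟨n, hn⟩, hinj⟩ := hc
  have e0 := gfd_e0 h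
  have e1 := gfd_e1 h
  have hne : ∀ {s : List ℕ}, s ≠ [] → ∃ v, s[0]? = some v := by
    intro s hs
    rcases s with _ | ⟨v, s⟩
    · exact absurd rfl hs
    · exact ⟨v, rfl⟩
  refine ⟨gfd_fin hstf hM hn h, fun z hz => ?_, ⟨nu n, CUR.nu_mem_om n, fun i hi => ?_,
    fun d hd => ?_⟩, fun m d i hz => ?_, fun d i j m m' hi hj hk => ?_⟩
  · rcases (h z).1 hz with ⟨i, k, v, q, rfl⟩ | ⟨i, k, v, q, rfl⟩ | ⟨d, i, m, q, rfl⟩
    · exact Or.inl ⟨_, _, CUR.nu_mem_om _, i.2, rfl⟩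
    · exact Or.inr (Or.inl ⟨_, _, CUR.nu_mem_om _, i.2, rfl⟩)
    · exact Or.inr (Or.inr ⟨_, _, _, CUR.nu_mem_om _, d.2, i.2, (hn.b d i m q).1, rfl⟩)
  · by_cases hi0 : c.a ⟨i, hi⟩ = []
    · left
      intro j hj
      obtain ⟨k, v, q, _⟩ := (e0 ⟨i, hi⟩ j).1 hj
      rw [hi0] at q
      simp at q
    · right
      exact ⟨nu (lc (c.a ⟨i, hi⟩)), gfd_r1.2 ⟨_, rfl, hn.la _ hi0⟩,
        fun j => (e0 ⟨i, hi⟩ j).trans gfd_r2.symm⟩
  · by_cases hi0 : c.t ⟨d, hd⟩ = []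
    · left
      intro j hj
      obtain ⟨k, v, q, _⟩ := (e1 ⟨d, hd⟩ j).1 hj
      rw [hi0] at q
      simp at q
    · right
      refine ⟨nu (lc (c.t ⟨d, hd⟩)), ?_, gfd_r3.2 (hn.adm _),
        fun j => (e1 ⟨d, hd⟩ j).trans gfd_r2.symm⟩
      rw [← gfd_nuS]
      exact gfd_r1.2 ⟨_, rfl, hn.lt _ hi0⟩
  · obtain ⟨d, i, m, q, rfl, rfl, rfl⟩ := gfd_e2 h hz
    obtain ⟨b1, b2, b3, b4, b5⟩ := hn.b d i m q
    obtain ⟨v, hv⟩ := hne b3
    obtain ⟨w, hw⟩ := hne b2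
    refine ⟨⟨_, (e0 i _).2 ⟨0, v, hv, rfl⟩⟩, ⟨_, (e1 d _).2 ⟨0, w, hw, rfl⟩⟩,
      nu (lc (c.t d)), nu (lc (c.a i)), fun j => (e1 d j).trans gfd_r2.symm,
      fun j => (e0 i j).trans gfd_r2.symm, gfd_r4.2 ⟨?_, b5⟩⟩
    rw [hn.la i b3]
    exact b4
  · obtain ⟨d, i, m, q, rfl, rfl, rfl⟩ := gfd_e2 h hi
    obtain ⟨d', j, m', q', rfl, ed, rfl⟩ := gfd_e2 h hj
    have := Subtype.ext ed
    subst this
    rw [hinj d i j m m' q q' ?_]
    refine gfd_eq fun k v => ?_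
    constructor
    · intro hk1
      obtain ⟨k', v', q1, q2⟩ := (e0 j _).1 ((hk _).1 ((e0 i _).2 ⟨k, v, hk1, rfl⟩))
      have := gfd_inj q2
      rw [Nat.pair_eq_pair] at this
      rw [this.1, this.2]
      exact q1
    · intro hk1
      obtain ⟨k', v', q1, q2⟩ := (e0 i _).1 ((hk _).2 ((e0 j _).2 ⟨k, v, hk1, rfl⟩))
      have := gfd_inj q2
      rw [Nat.pair_eq_pair] at this
      rw [this.1, this.2]
      exact q1

end

theorem ao_gfd (hstf : STFStmt) : GFDStmt := by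
  intro M _ _ l T hM
  refine (gfd_df (RR_df hM.std (hM.has 1)) (RR_df hM.std (hM.has 2)) (RR_df hM.std (hM.has 3))
    (RR_df hM.std (hM.has 4)) l T).congr fun v => ?_
  exact ⟨fun ⟨c, h1, h2⟩ => gfd_from hstf hM h1 h2, fun h => gfd_to hstf hM h⟩

end AO.BP
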