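import Pool.Agent.H21.AO.GFD

/-!
AO, block P, module GFE: the notion of forcing exists.
-/

set_option linter.unusedVariables false
set_option linter.unusedSectionVars false
set_option synthInstance.maxSize 100000

namespace AO.BP

open SW

section
variable {M : Type} [SetStr M] [ZF M]

theorem gfe_sub {l T p : M} {c : Cn (Ix l)} (h : Enc l p c) :
    Sub p (prod om (prod om (prod l l))) := by
  intro z hz
  rcases (h z).1 hz with ⟨i, k, v, q, rfl⟩ | ⟨i, k, v, q, rfl⟩ | ⟨d, i, m, q, rfl⟩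
  · unfold fct
    rw [mem_prod, mem_prod, mem_prod]
    exact ⟨CUR.nu_mem_om _, CUR.nu_mem_om _, i.2, i.2⟩
  · unfold fct
    rw [mem_prod, mem_prod, mem_prod]
    exact ⟨CUR.nu_mem_om _, CUR.nu_mem_om _, i.2, i.2⟩
  · unfold fct
    rw [mem_prod, mem_prod, mem_prod]
    exact ⟨CUR.nu_mem_om _, CUR.nu_mem_om _, d.2, i.2⟩

theorem gfe_emp (hl : LEPStmt) (l T : M) : ∃ c : Cn (Ix l), VC (Tt l T) c ∧ Enc l emp c := by
  refine ⟨⟨fun _ => [], fun _ => [], fun _ _ _ => False⟩, hl.one _ _, fun z => ?_⟩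
  constructor
  · intro hz
    exact absurd hz (not_mem_emp z)
  · rintro (⟨i, k, v, q, rfl⟩ | ⟨i, k, v, q, rfl⟩ | ⟨d, i, m, q, rfl⟩)
    · simp at q
    · simp at q
    · exact q.elim

end

theorem ao_gfe (hstf : STFStmt) (hd : GFDStmt) (hl : LEPStmt) : GFEStmt := by
  intro M _ _ l T hM
  have hdf := hd M l T hM
  have hmem : ∀ p, E p (sep (pow (prod om (prod om (prod l l))))
      (fun p : M => ∃ c : Cn (Ix l), VC (Tt l T) c ∧ Enc l p c)) ↔
      ∃ c : Cn (Ix l), VC (Tt l T) c ∧ Enc l p c := by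
    intro p
    rw [mem_sep' hdf, mem_pow]
    refine ⟨fun h => h.2, fun h => ⟨?_, h⟩⟩
    obtain ⟨c, _, h2⟩ := h
    exact gfe_sub (T := T) h2
  refine ⟨⟨sep (pow (prod om (prod om (prod l l))))
      (fun p : M => ∃ c : Cn (Ix l), VC (Tt l T) c ∧ Enc l p c), fun p q => Sub q p, emp,
      inferInstance, (hmem _).2 (gfe_emp hl l T), fun p _ => Sub.refl p,
      fun p q r _ _ _ h1 h2 => h2.trans h1, fun p _ z hz => absurd hz (not_mem_emp z)⟩, hmem,
      fun c hc => ?_, fun p q => Iff.rfl, rfl⟩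
  obtain ⟨n, hn⟩ := hc.pc
  obtain ⟨x, hx⟩ := (hstf M hM.std).2 _ (gfd_finS hn)
  exact ⟨x, hx⟩

end AO.BP
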