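import Pool.Agent.H98.AO.Grp

/-!
Finite supports (GFS).
-/

namespace AO

theorem gfs_GS_mono (Z : Rl → Rl → Prop) {V W : Set Vx} (h : V ⊆ W) : GS Z V ⊆ GS Z W := by
  rintro g (⟨v, s, hv, rfl⟩ | ⟨y, w, n, hy, hw, rfl⟩)
  · exact Or.inl ⟨v, s, h hv, rfl⟩
  · exact Or.inr ⟨y, w, n, h hy, h hw, rfl⟩

theorem gfs_GV_mono (Z : Rl → Rl → Prop) {V W : Set Vx} (h : V ⊆ W) : GV Z V ≤ GV Z W :=
  Subgroup.closure_mono (gfs_GS_mono Z h)

theorem gfs : GFSStmt := by
  classical
  intro Z V g hg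
  unfold GV at hg
  induction hg using Subgroup.closure_induction with
  | mem g hg =>
    rcases hg with ⟨v, s, hv, rfl⟩ | ⟨y, w, n, hy, hw, rfl⟩
    · refine ⟨{v}, by simpa using hv, Subgroup.subset_closure (Or.inl ⟨v, s, by simp, rfl⟩)⟩
    · refine ⟨{(false, y), (true, w)}, ?_, Subgroup.subset_closure
        (Or.inr ⟨y, w, n, by simp, by simp, rfl⟩)⟩
      intro u hu
      simp only [Finset.coe_insert, Finset.coe_singleton, Set.mem_insert_iff,
        Set.mem_singleton_iff] at hu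
      rcases hu with rfl | rfl
      · exact hy
      · exact hw
  | one => exact ⟨∅, by simp, one_mem _⟩
  | mul a b _ _ iha ihb =>
    obtain ⟨F, hF, ha⟩ := iha
    obtain ⟨F', hF', hb⟩ := ihb
    refine ⟨F ∪ F', ?_, ?_⟩
    · rw [Finset.coe_union]; exact Set.union_subset hF hF'
    · refine mul_mem (gfs_GV_mono Z ?_ ha) (gfs_GV_mono Z ?_ hb)
      · rw [Finset.coe_union]; exact Set.subset_union_left
      · rw [Finset.coe_union]; exact Set.subset_union_right
  | inv a _ iha =>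
    obtain ⟨F, hF, ha⟩ := iha
    exact ⟨F, hF, inv_mem ha⟩

end AO
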