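import Pool.Agent.H98.AO.Grp

/-!
Intersections of the subgroups of vertex sets (GRI).
-/

namespace AO

theorem gri_rel_GT (Z : Rl → Rl → Prop) (y w : Rl) (n : ℕ) (h : Z y w) :
    GT Z y w n = GT Z y w (n + 1) ^ 2 * GX Z (false, y) (str w (n + 1)) *
      GX Z (true, w) (str y (n + 1)) := by
  unfold GT GX
  rw [← QuotientGroup.mk_pow, ← QuotientGroup.mk_mul, ← QuotientGroup.mk_mul]
  apply QuotientGroup.eq.mpr
  refine ⟨n + 1, fun m hm => ?_⟩
  rw [map_mul, map_inv, inv_mul_eq_one]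
  simp only [map_mul, map_pow, FreeGroup.lift_apply_of, lev, if_pos h]
  obtain ⟨k, rfl⟩ := Nat.exists_eq_add_of_le hm
  have e1 : n + 1 + k - n = k + 1 := by omega
  have e2 : n + 1 + k - (n + 1) = k := by omega
  have e3 : n + 1 + k - k = n + 1 := by omega
  rw [e1, e2, tau, e3]

theorem gri_one_GT (Z : Rl → Rl → Prop) (y w : Rl) (n : ℕ) (h : ¬ Z y w) : GT Z y w n = 1 := by
  unfold GT
  rw [QuotientGroup.eq_one_iff]
  refine ⟨0, fun m _ => ?_⟩
  simp only [FreeGroup.lift_apply_of, lev, if_neg h]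

open Classical in
/-- substitution of `t (y, w, m)` for the letters of the edges -/
noncomputable def gri_sbt (Z : Rl → Rl → Prop) (m : ℕ) : FreeGroup Ltr →* Gr Z :=
  FreeGroup.lift (fun l => match l with
    | Sum.inl v => GX Z v.1 v.2
    | Sum.inr p => if Z p.1 p.2 then GT Z p.1 p.2 m else 1)

theorem gri_sbt_inl (Z : Rl → Rl → Prop) (m : ℕ) (v : Vx) (s : Str) :
    gri_sbt Z m (FreeGroup.of (Sum.inl (v, s))) = GX Z v s := by
  unfold gri_sbt; rw [FreeGroup.lift_apply_of]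

theorem gri_sbt_inr (Z : Rl → Rl → Prop) (m : ℕ) (y w : Rl) (h : Z y w) :
    gri_sbt Z m (FreeGroup.of (Sum.inr (y, w))) = GT Z y w m := by
  unfold gri_sbt; rw [FreeGroup.lift_apply_of]; simp only [if_pos h]

theorem gri_sbt_tau (Z : Rl → Rl → Prop) (m : ℕ) (y w : Rl) (h : Z y w) (j : ℕ) (hj : j ≤ m) :
    gri_sbt Z m (tau y w m j) = GT Z y w (m - j) := by
  induction j with
  | zero => rw [tau, gri_sbt_inr Z m y w h, Nat.sub_zero]
  | succ j ih =>
    rw [tau, map_mul, map_mul, map_pow, ih (by omega), gri_sbt_inl, gri_sbt_inl]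
    have e : m - j = m - (j + 1) + 1 := by omega
    rw [e]
    exact (gri_rel_GT Z y w (m - (j + 1)) h).symm

theorem gri_sbt_lev (Z : Rl → Rl → Prop) (a : FreeGroup Gn) : ∃ M, ∀ m, M ≤ m →
    gri_sbt Z m (FreeGroup.lift (lev Z m) a) = (QuotientGroup.mk a : Gr Z) := by
  induction a using FreeGroup.induction_on with
  | C1 => exact ⟨0, fun m _ => by rw [map_one, map_one]; rfl⟩
  | of g =>
    rcases g with ⟨v, s⟩ | ⟨y, w, n⟩
    · refine ⟨0, fun m _ => ?_⟩
      rw [FreeGroup.lift_apply_of, lev, gri_sbt_inl]; rfl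
    · refine ⟨n, fun m hm => ?_⟩
      rw [FreeGroup.lift_apply_of, lev]
      by_cases h : Z y w
      · rw [if_pos h, gri_sbt_tau Z m y w h (m - n) (by omega)]
        have e : m - (m - n) = n := by omega
        rw [e]; rfl
      · rw [if_neg h, map_one]
        exact (gri_one_GT Z y w n h).symm
  | inv_of g ih =>
    obtain ⟨M, hM⟩ := ih
    refine ⟨M, fun m hm => ?_⟩
    rw [map_inv, map_inv, hM m hm]; rfl
  | mul a b iha ihb =>
    obtain ⟨M, hM⟩ := iha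
    obtain ⟨M', hM'⟩ := ihb
    refine ⟨max M M', fun m hm => ?_⟩
    rw [map_mul, map_mul, hM m (le_trans (le_max_left _ _) hm),
      hM' m (le_trans (le_max_right _ _) hm)]
    rfl

/-- letters with vertices in `V` -/
def gri_LV (V : Set Vx) : Set Ltr := {l | (∃ v s, v ∈ V ∧ l = Sum.inl (v, s)) ∨
  ∃ y w, (false, y) ∈ V ∧ (true, w) ∈ V ∧ l = Sum.inr (y, w)}

theorem gri_LV_inl {V : Set Vx} {v : Vx} {s : Str} (h : v ∈ V) :
    FreeGroup.of (Sum.inl (v, s) : Ltr) ∈ Subgroup.closure (FreeGroup.of '' gri_LV V) :=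
  Subgroup.subset_closure ⟨_, Or.inl ⟨v, s, h, rfl⟩, rfl⟩

theorem gri_tau_mem {V : Set Vx} (y w : Rl) (hy : (false, y) ∈ V) (hw : (true, w) ∈ V) (m k : ℕ) :
    tau y w m k ∈ Subgroup.closure (FreeGroup.of '' gri_LV V) := by
  induction k with
  | zero => exact Subgroup.subset_closure ⟨_, Or.inr ⟨y, w, hy, hw, rfl⟩, rfl⟩
  | succ k ih =>
    rw [tau]
    exact mul_mem (mul_mem (pow_mem ih 2) (gri_LV_inl hy)) (gri_LV_inl hw)

theorem gri_GV_word (Z : Rl → Rl → Prop) (V : Set Vx) (g : Gr Z) (hg : g ∈ GV Z V) :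
    ∃ a : FreeGroup Gn, (QuotientGroup.mk a : Gr Z) = g ∧ ∀ m, FreeGroup.lift (lev Z m) a ∈
      Subgroup.closure (FreeGroup.of '' gri_LV V) := by
  unfold GV at hg
  induction hg using Subgroup.closure_induction with
  | mem g hg =>
    rcases hg with ⟨v, s, hv, rfl⟩ | ⟨y, w, n, hy, hw, rfl⟩
    · refine ⟨FreeGroup.of (Sum.inl (v, s)), rfl, fun m => ?_⟩
      rw [FreeGroup.lift_apply_of, lev]
      exact gri_LV_inl hv
    · refine ⟨FreeGroup.of (Sum.inr (y, w, n)), rfl, fun m => ?_⟩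
      rw [FreeGroup.lift_apply_of, lev]
      by_cases h : Z y w
      · rw [if_pos h]; exact gri_tau_mem y w hy hw m _
      · rw [if_neg h]; exact one_mem _
  | one => exact ⟨1, rfl, fun m => by rw [map_one]; exact one_mem _⟩
  | mul a b _ _ iha ihb =>
    obtain ⟨a', ha, ha'⟩ := iha
    obtain ⟨b', hb, hb'⟩ := ihb
    refine ⟨a' * b', by rw [QuotientGroup.mk_mul, ha, hb], fun m => ?_⟩
    rw [map_mul]; exact mul_mem (ha' m) (hb' m)
  | inv a _ iha =>
    obtain ⟨a', ha, ha'⟩ := iha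
    refine ⟨a'⁻¹, by rw [QuotientGroup.mk_inv, ha], fun m => ?_⟩
    rw [map_inv]; exact inv_mem (ha' m)

open Classical in
/-- an element of two free factors lies in their intersection -/
theorem gri_free_inter {L : Type} (A B : Set L) (x : FreeGroup L)
    (hA : x ∈ Subgroup.closure (FreeGroup.of '' A)) (hB : x ∈ Subgroup.closure (FreeGroup.of '' B)) :
    x ∈ Subgroup.closure (FreeGroup.of '' (A ∩ B)) := by
  let ρ : FreeGroup L →* FreeGroup L := FreeGroup.lift (fun l => if l ∈ B then FreeGroup.of l else 1)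
  have h1 : ρ x = x := by
    have h : Subgroup.closure (FreeGroup.of '' B) ≤ MonoidHom.eqLocus ρ (MonoidHom.id _) := by
      rw [Subgroup.closure_le]
      rintro _ ⟨l, hl, rfl⟩
      change ρ (FreeGroup.of l) = FreeGroup.of l
      simp only [ρ, FreeGroup.lift_apply_of, if_pos hl]
    exact h hB
  have h2 : ρ x ∈ Subgroup.closure (FreeGroup.of '' (A ∩ B)) := by
    have h : Subgroup.closure (FreeGroup.of '' A) ≤
        (Subgroup.closure (FreeGroup.of '' (A ∩ B))).comap ρ := by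
      rw [Subgroup.closure_le]
      rintro _ ⟨l, hl, rfl⟩
      change ρ (FreeGroup.of l) ∈ Subgroup.closure (FreeGroup.of '' (A ∩ B))
      simp only [ρ, FreeGroup.lift_apply_of]
      by_cases h : l ∈ B
      · rw [if_pos h]; exact Subgroup.subset_closure ⟨l, ⟨hl, h⟩, rfl⟩
      · rw [if_neg h]; exact one_mem _
    exact h hA
  rw [h1] at h2
  exact h2

theorem gri_LV_inter (V W : Set Vx) : gri_LV V ∩ gri_LV W = gri_LV (V ∩ W) := by
  ext l
  constructor
  · rintro ⟨⟨v, s, hv, rfl⟩ | ⟨y, w, hy, hw, rfl⟩, h2⟩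
    · rcases h2 with ⟨v', s', hv', h⟩ | ⟨y, w, hy, hw, h⟩
      · obtain ⟨rfl, rfl⟩ := Prod.mk.inj (Sum.inl.inj h)
        exact Or.inl ⟨v, s, ⟨hv, hv'⟩, rfl⟩
      · cases h
    · rcases h2 with ⟨v', s', hv', h⟩ | ⟨y', w', hy', hw', h⟩
      · cases h
      · obtain ⟨rfl, rfl⟩ := Prod.mk.inj (Sum.inr.inj h)
        exact Or.inr ⟨y, w, ⟨hy, hy'⟩, ⟨hw, hw'⟩, rfl⟩
  · rintro (⟨v, s, hv, rfl⟩ | ⟨y, w, hy, hw, rfl⟩)
    · exact ⟨Or.inl ⟨v, s, hv.1, rfl⟩, Or.inl ⟨v, s, hv.2, rfl⟩⟩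
    · exact ⟨Or.inr ⟨y, w, hy.1, hw.1, rfl⟩, Or.inr ⟨y, w, hy.2, hw.2, rfl⟩⟩

theorem gri_sbt_mem (Z : Rl → Rl → Prop) (V : Set Vx) (m : ℕ) (x : FreeGroup Ltr)
    (hx : x ∈ Subgroup.closure (FreeGroup.of '' gri_LV V)) : gri_sbt Z m x ∈ GV Z V := by
  have h : Subgroup.closure (FreeGroup.of '' gri_LV V) ≤ (GV Z V).comap (gri_sbt Z m) := by
    rw [Subgroup.closure_le]
    rintro _ ⟨l, hl, rfl⟩
    change gri_sbt Z m (FreeGroup.of l) ∈ GV Z V
    rcases hl with ⟨v, s, hv, rfl⟩ | ⟨y, w, hy, hw, rfl⟩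
    · rw [gri_sbt_inl]; exact Subgroup.subset_closure (Or.inl ⟨v, s, hv, rfl⟩)
    · by_cases h : Z y w
      · rw [gri_sbt_inr Z m y w h]
        exact Subgroup.subset_closure (Or.inr ⟨y, w, m, hy, hw, rfl⟩)
      · have : gri_sbt Z m (FreeGroup.of (Sum.inr (y, w))) = 1 := by
          unfold gri_sbt; rw [FreeGroup.lift_apply_of]; simp only [if_neg h]
        rw [this]; exact one_mem _
  exact h hx

theorem gri : GRIStmt := by
  intro Z V W
  apply le_antisymm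
  · rintro g ⟨hV, hW⟩
    obtain ⟨a, ha, ha'⟩ := gri_GV_word Z V g hV
    obtain ⟨b, hb, hb'⟩ := gri_GV_word Z W g hW
    obtain ⟨m0, hm0⟩ := QuotientGroup.eq.mp (ha.trans hb.symm)
    obtain ⟨M, hM⟩ := gri_sbt_lev Z a
    have h1 := hm0 (max m0 M) (le_max_left _ _)
    have h2 := hM (max m0 M) (le_max_right _ _)
    rw [map_mul, map_inv, inv_mul_eq_one] at h1
    rw [ha] at h2
    rw [← h2]
    apply gri_sbt_mem
    rw [← gri_LV_inter]
    apply gri_free_inter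
    · exact ha' _
    · rw [h1]; exact hb' _
  · refine le_inf (Subgroup.closure_mono ?_) (Subgroup.closure_mono ?_)
    · rintro g (⟨v, s, hv, rfl⟩ | ⟨y, w, n, hy, hw, rfl⟩)
      · exact Or.inl ⟨v, s, hv.1, rfl⟩
      · exact Or.inr ⟨y, w, n, hy.1, hw.1, rfl⟩
    · rintro g (⟨v, s, hv, rfl⟩ | ⟨y, w, n, hy, hw, rfl⟩)
      · exact Or.inl ⟨v, s, hv.2, rfl⟩
      · exact Or.inr ⟨y, w, n, hy.2, hw.2, rfl⟩

end AO
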