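import Pool.Agent.H98.AO.Grp

/-!
The generators `x` of the group are different (GXI).
-/

namespace AO

theorem gxi : GXIStmt := by
  intro Z v v' s s' h
  unfold GX at h
  rw [QuotientGroup.eq] at h
  obtain ⟨m0, hm⟩ := h
  have h1 := hm m0 le_rfl
  rw [map_mul, map_inv, FreeGroup.lift_apply_of, FreeGroup.lift_apply_of, inv_mul_eq_one] at h1
  have h2 := FreeGroup.of_injective h1
  have h3 := Sum.inl.inj h2
  exact Prod.mk.inj h3

end AO
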