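import Pool.Agent.H98.AO.Grp
import Mathlib.Data.ZMod.Basic
import Mathlib.Algebra.BigOperators.Ring.Finset

/-!
A homomorphism which separates the elements `t (y, w, 0)` (NF2).
-/

namespace AO

/-- the value group -/
abbrev NFK : Type := Multiplicative (∀ k : ℕ, ZMod (2 ^ k))

/-- the number with the binary digits `w n, ..., w (n + k - 1)` -/
def nfs (w : Rl) (n k : ℕ) : ℕ := ∑ j ∈ Finset.range k, 2 ^ j * (w (n + j)).toNat

theorem nf2_shift (w : Rl) (n k : ℕ) :
    nfs w n k + 2 ^ k * (w (n + k)).toNat = 2 * nfs w (n + 1) k + (w n).toNat := by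
  unfold nfs
  have h1 := Finset.sum_range_succ (fun j => 2 ^ j * (w (n + j)).toNat) k
  have h2 := Finset.sum_range_succ' (fun j => 2 ^ j * (w (n + j)).toNat) k
  rw [← h1, h2, Finset.mul_sum, pow_zero, one_mul, Nat.add_zero]
  congr 1
  refine Finset.sum_congr rfl fun j _ => ?_
  have e : n + (j + 1) = n + 1 + j := by omega
  rw [e, pow_succ]; ring

theorem nf2_lt (w : Rl) (n k : ℕ) : nfs w n k < 2 ^ k := by
  unfold nfs
  induction k with
  | zero => simp
  | succ k ih =>
    rw [Finset.sum_range_succ, pow_succ]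
    have h : (w (n + k)).toNat ≤ 1 := Bool.toNat_le _
    have h2 : 2 ^ k * (w (n + k)).toNat ≤ 2 ^ k * 1 := Nat.mul_le_mul_left _ h
    omega

theorem nf2_inj (w w' : Rl) (h : ∀ k, nfs w 0 k = nfs w' 0 k) : w = w' := by
  funext k
  have h1 := h (k + 1)
  unfold nfs at h1
  rw [Finset.sum_range_succ, Finset.sum_range_succ] at h1
  have h2 := h k
  unfold nfs at h2
  rw [h2] at h1
  have h3 : 2 ^ k * (w (0 + k)).toNat = 2 ^ k * (w' (0 + k)).toNat := Nat.add_left_cancel h1
  have h4 := Nat.eq_of_mul_eq_mul_left (by positivity) h3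
  rw [Nat.zero_add] at h4
  revert h4
  cases w k <;> cases w' k <;> simp

open Classical in
/-- the values of `x` -/
noncomputable def nfx (y : Rl) (v : Vx) (s : Str) : NFK :=
  if v = (false, y) then
    Multiplicative.ofAdd (fun k => (((s.getLast?.getD false).toNat : ℕ) : ZMod (2 ^ k)))
  else 1

open Classical in
/-- the values of `t` -/
noncomputable def nft (Z : Rl → Rl → Prop) (y : Rl) (y' w : Rl) (n : ℕ) : NFK :=
  if y' = y ∧ Z y' w then
    Multiplicative.ofAdd (fun k => ((nfs w n k : ℕ) : ZMod (2 ^ k)))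
  else 1

theorem nf2_str_last (w : Rl) (n : ℕ) : (str w (n + 1)).getLast?.getD false = w n := by
  simp [str, List.range_succ]

theorem nf2_rls (Z : Rl → Rl → Prop) (y : Rl) : Rls Z Set.univ (nfx y) (nft Z y) := by
  constructor
  · intro y' w n _ _ h
    have e2 : nfx y (true, w) (str y' (n + 1)) = 1 := by
      unfold nfx
      rw [if_neg]
      intro h; cases h
    rw [e2, mul_one]
    by_cases hy : y' = y
    · subst hy
      unfold nft nfx
      rw [if_pos ⟨rfl, h⟩, if_pos ⟨rfl, h⟩, if_pos rfl, ← ofAdd_nsmul, ← ofAdd_add]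
      congr 1
      funext k
      rw [Pi.add_apply, Pi.smul_apply, nf2_str_last]
      have h1 := congrArg (Nat.cast : ℕ → ZMod (2 ^ k)) (nf2_shift w n k)
      have h2 : ((2 : ZMod (2 ^ k)) ^ k) = 0 := by
        have := ZMod.natCast_self (2 ^ k)
        push_cast at this
        exact this
      push_cast at h1
      rw [h2, zero_mul, add_zero] at h1
      rw [h1, nsmul_eq_mul]
      push_cast
      rfl
    · unfold nft nfx
      rw [if_neg (fun h => hy h.1), if_neg (fun h => hy h.1), if_neg, one_pow, mul_one]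
      intro h
      exact hy (Prod.mk.inj h).2
  · intro y' w n _ _ h
    unfold nft
    rw [if_neg (fun h' => h h'.2)]

theorem nf2 (grr : GRRStmt) (gru : GRUStmt) : NF2Stmt := by
  intro Z y
  obtain ⟨f, hfx, hft⟩ := gru Z Set.univ NFK (nfx y) (nft Z y) (nf2_rls Z y)
  have htop := (grr Z).2
  have hmem : ∀ g : Gr Z, g ∈ GV Z Set.univ := fun g => by rw [htop]; trivial
  let F : Gr Z →* NFK := f.comp (MonoidHom.codRestrict (MonoidHom.id (Gr Z)) (GV Z Set.univ) hmem)
  have hFx : ∀ v s, F (GX Z v s) = nfx y v s := fun v s => hfx v s (hmem _) trivial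
  have hFt : ∀ y' w n, F (GT Z y' w n) = nft Z y y' w n := fun y' w n =>
    hft y' w n (hmem _) trivial trivial
  refine ⟨NFK, inferInstance, F, ?_, ?_⟩
  · intro V hV g hg
    have h : GV Z V ≤ F.ker := by
      unfold GV
      rw [Subgroup.closure_le]
      rintro g (⟨v, s, hv, rfl⟩ | ⟨y', w, n, hy, hw, rfl⟩)
      · change F (GX Z v s) = 1
        rw [hFx]
        unfold nfx
        rw [if_neg]
        rintro rfl
        exact hV hv
      · change F (GT Z y' w n) = 1
        rw [hFt]
        unfold nft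
        rw [if_neg]
        rintro ⟨rfl, -⟩
        exact hV hy
    exact h hg
  · intro w w' hw hw' h
    rw [hFt, hFt] at h
    unfold nft at h
    rw [if_pos ⟨rfl, hw⟩, if_pos ⟨rfl, hw'⟩] at h
    have h1 := Multiplicative.ofAdd.injective h
    apply nf2_inj
    intro k
    have h2 := congrFun h1 k
    have h3 := (ZMod.natCast_eq_natCast_iff' _ _ _).mp h2
    rw [Nat.mod_eq_of_lt (nf2_lt w 0 k), Nat.mod_eq_of_lt (nf2_lt w' 0 k)] at h3
    exact h3

end AO
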