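import Pool.Agent.H36.AO.PStmts

/-!
AO, block P, module QGN: conditions whose restriction is in the generic filter have extensions in
dense classes with the same property.
-/

set_option linter.unusedVariables false
set_option linter.unusedSectionVars false
set_option synthInstance.maxSize 100000

namespace AO.BP

open SW

section
variable {M : Type} [SetStr M] [ZF M]

theorem qgn_df {C : M → Prop} (hC : Cl C) (P X p q : M) :
    Cl (fun z => ∃ p', E p' P ∧ Sub p p' ∧ Sub q p' ∧ C p' ∧ Sub (rst p' X) z) := by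
  have : Df (fun w : Fin 2 → M => C (w 0)) := hC.comp1 inferInstance
  infer_instance

end

theorem ao_qgn : QGNStmt := by
  intro M _ _ F G X hR hG hX C hC p q hp hpG hq hqD hd
  obtain ⟨z0, h0, h1, h2⟩ := hG.dir _ _ hpG hq
  rw [hR] at h1 h2
  have hpD := hX.rs p hp
  obtain ⟨z, hz, _, p', hp', h3, h4, h5, h6⟩ := (genF hG).meetB
    (fun z => ∃ p', E p' F.P ∧ Sub p p' ∧ Sub q p' ∧ C p' ∧ Sub (rst p' X) z)
    (qgn_df hC F.P X p q) z0 h0 (by
      intro z hz hz0
      rw [hR] at hz0
      have hzD := hX.rs z hz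
      obtain ⟨r, hr, h3, h4⟩ := hX.ama p (rst z X) hp hzD (hX.up _ z hpD hz (h1.trans hz0))
      have hqr : Sub q r := (hX.up q z hqD hz (h2.trans hz0)).trans h4
      obtain ⟨r', hr', h5, h6⟩ := hd r hr h3
      have hrD := hX.rs r' hr'
      obtain ⟨z', hz', h7, h8⟩ := hX.ama z (rst r' X) hz hrD
        (hX.up _ r' hzD hr' (h4.trans h5))
      exact ⟨z', hz', (hR _ _).2 h7, r', hr', h3.trans h5, hqr.trans h5, h6, h8⟩)
  exact ⟨p', hp', h3, h4, h5, hG.up z _ hz (mem_PD.1 (hX.rs p' hp')).1 ((hR _ _).2 h6)⟩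

end AO.BP
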