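import Pool.Agent.H36.AO.PStmts

/-!
AO, block P, module STF: finite sets in models with standard natural numbers.
-/

set_option linter.unusedVariables false
set_option linter.unusedSectionVars false
set_option synthInstance.maxSize 100000

namespace AO.BP

open SW

section
variable {M : Type} [SetStr M] [ZF M]

theorem stf_ex {S : Set M} (hS : S.Finite) : ∃ x : M, Fnt x ∧ ∀ z, E z x ↔ z ∈ S := by
  refine Set.Finite.induction_on S hS ?_ ?_
  · exact ⟨emp, finF.emp, fun z => ⟨fun h => absurd h (not_mem_emp z), fun h => absurd h (by simp)⟩⟩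
  · rintro a s _ _ ⟨x, hx, h⟩
    refine ⟨ins a x, finF.ins hx, fun z => ?_⟩
    rw [mem_ins, h, Set.mem_insert_iff]
    exact or_comm

theorem stf_fin (hstd : Std M) {x : M} (hx : Fnt x) : {z | E z x}.Finite := by
  classical
  obtain ⟨n, hn, f, _, h2, h3, _⟩ := hx
  obtain ⟨k, rfl⟩ := hstd n hn
  have hfin : {z : M | E z (nu k)}.Finite := by
    refine ((Set.finite_Iio k).image (fun m => (nu m : M))).subset ?_
    intro z hz
    obtain ⟨m, hm, rfl⟩ := (CUR.mem_nu k z).1 hz
    exact ⟨m, hm, rfl⟩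
  refine (hfin.image (fun i => if h : ∃ y, E y x ∧ E (opair i y) f then h.choose
    else emp)).subset ?_
  intro y hy
  obtain ⟨i, hi, hf⟩ := h2 y hy
  refine ⟨i, hi, ?_⟩
  have hex : ∃ y, E y x ∧ E (opair i y) f := ⟨y, hy, hf⟩
  show (if h : ∃ y, E y x ∧ E (opair i y) f then h.choose else emp) = y
  rw [dif_pos hex]
  exact h3 i _ _ hi hex.choose_spec.2 hf

end

theorem ao_stf : STFStmt := by
  intro M _ _ hstd
  refine ⟨fun x => ⟨fun h => stf_fin hstd h, fun h => ?_⟩, fun S hS => ?_⟩
  · obtain ⟨y, hy, hz⟩ := stf_ex h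
    have : x = y := SW.ext fun z => (hz z).symm
    rw [this]
    exact hy
  · obtain ⟨y, _, hz⟩ := stf_ex hS
    exact ⟨y, hz⟩

end AO.BP
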