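import Pool.Agent.H36.AO.PStmts

/-!
AO, block P, module XFC: facts about restrictions of conditions.
-/

set_option linter.unusedVariables false
set_option linter.unusedSectionVars false
set_option synthInstance.maxSize 100000

namespace AO.BP

open SW

section
variable {M : Type} [SetStr M] [ZF M]

theorem xfc_x {p X z : M} (h : Sub (SP p) X) (hz : E z p) : E (x1 z) X ∧ E (x2 z) X :=
  ⟨h _ (mem_SP.2 ⟨z, hz, Or.inl rfl⟩), h _ (mem_SP.2 ⟨z, hz, Or.inr rfl⟩)⟩

end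

theorem ao_xfc : XFCStmt := by
  intro M _ _ l T P X hC hG
  have hle : ∀ p : M, Sub (rst p X) p := fun p z hz => (mem_rst.1 hz).1
  refine ⟨fun p hp => ?_, hle, fun p q h z hz => ?_, fun p hp => ?_, fun p q hp hq h z hz => ?_,
    fun p q hp hq h => ?_⟩
  · rw [mem_PD]
    refine ⟨hC.rs p X hp, fun i hi => ?_⟩
    obtain ⟨z, hz, h1 | h1⟩ := mem_SP.1 hi
    · rw [h1]; exact (mem_rst.1 hz).2.1
    · rw [h1]; exact (mem_rst.1 hz).2.2
  · rw [mem_rst] at hz ⊢
    exact ⟨h _ hz.1, hz.2⟩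
  · refine Sub.antisymm (hle p) fun z hz => ?_
    exact mem_rst.2 ⟨hz, xfc_x (mem_PD.1 hp).2 hz⟩
  · exact mem_rst.2 ⟨h z hz, xfc_x (mem_PD.1 hp).2 hz⟩
  · refine hC.ama p q X hp (mem_PD.1 hq).1 (fun i _ hi => (mem_PD.1 hq).2 i hi) h ?_
    intro i _ hi d e hd he h1 h2
    by_contra hne
    exact hi (hG d e i hd he hne h1 h2)

end AO.BP
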